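import Pool.Agent.E8helper75.Semi

/-!
# The arcsine weight
-/

set_option autoImplicit false

namespace Pool.Agent.E8helper75.Pf

open Finset Polynomial LaurentPolynomial

variable (a b : ℚ)

/-- the functional of the arcsine law -/
noncomputable def La : ℚ[X] →ₗ[ℚ] ℚ := Lw a b 1

lemma La_apply (f : ℚ[X]) : La a b f = cL 0 (Ph a b f) := by
  unfold La
  rw [Lw_apply, mul_one]

/-- the inner products of the Chebyshev polynomials -/
noncomputable def J (i j : ℕ) : ℚ := La a b (vv a b i * vv a b j)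

lemma Ph_vv (i : ℕ) (h : i ≠ 0) : Ph a b (vv a b i) = t ^ i + r a ^ i := by
  rw [vv_pos a b h, (Ph_ch a b i).1]

lemma J_eq (i j : ℕ) : J a b i j = if i = j then (if i = 0 then 1 else 2 * a ^ i) else 0 := by
  unfold J
  rw [La_apply, map_mul]
  rcases Nat.eq_zero_or_pos i with hi | hi
  · subst hi
    rw [vv_zero, map_one, one_mul]
    rcases Nat.eq_zero_or_pos j with hj | hj
    · subst hj
      rw [vv_zero, map_one, if_pos rfl, if_pos rfl]
      have : (1 : ℚ[T;T⁻¹]) = t ^ 0 * r a ^ 0 := by simp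
      rw [this, cL_tr]
      simp
    · rw [Ph_vv a b j (by omega), if_neg (by omega)]
      have : (t ^ j + r a ^ j : ℚ[T;T⁻¹]) = t ^ j * r a ^ 0 + t ^ 0 * r a ^ j := by ring
      rw [this, map_add, cL_tr, cL_tr, if_neg (by omega), if_neg (by omega), add_zero]
  · rcases Nat.eq_zero_or_pos j with hj | hj
    · subst hj
      rw [vv_zero, map_one, mul_one, Ph_vv a b i (by omega), if_neg (by omega)]
      have : (t ^ i + r a ^ i : ℚ[T;T⁻¹]) = t ^ i * r a ^ 0 + t ^ 0 * r a ^ i := by ring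
      rw [this, map_add, cL_tr, cL_tr, if_neg (by omega), if_neg (by omega), add_zero]
    · rw [Ph_vv a b i (by omega), Ph_vv a b j (by omega)]
      have : ((t ^ i + r a ^ i) * (t ^ j + r a ^ j) : ℚ[T;T⁻¹]) =
        t ^ (i + j) * r a ^ 0 + t ^ i * r a ^ j + t ^ j * r a ^ i + t ^ 0 * r a ^ (i + j) := by ring
      rw [this, map_add, map_add, map_add, cL_tr, cL_tr, cL_tr, cL_tr,
        if_neg (c := (((i + j : ℕ) : ℤ) - (0 : ℕ)) = 0) (by omega),
        if_neg (c := (((0 : ℕ) : ℤ) - (i + j : ℕ)) = 0) (by omega), if_neg (c := i = 0) (by omega)]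
      by_cases h : i = j
      · subst h
        rw [if_pos (by omega), if_pos rfl]
        ring
      · rw [if_neg (by omega), if_neg (by omega), if_neg h]
        ring

/-- the coefficient in the definition of `gg` -/
noncomputable def kp (n : ℕ) : ℚ := if n < 3 then 0 else n * a / (n - 2)

/-- the primitives of the Chebyshev polynomials, normalised to be monic -/
noncomputable def gg (n : ℕ) : ℚ[X] := vv a b n - Polynomial.C (kp a n) * vv a b (n - 2)

lemma gg_der (n : ℕ) (hn : 1 ≤ n) :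
    derivative (gg a b n) = Polynomial.C (n : ℚ) * vv a b (n - 1) := by
  unfold gg kp
  rcases lt_or_ge n 3 with h | h
  · rw [if_pos h, Polynomial.C_0, zero_mul, sub_zero]
    interval_cases n
    · rw [vv_pos a b (by omega), (der_ch a b 1).1]
      simp [sk, vv_zero]
    · rw [vv_pos a b (by omega), (der_ch a b 2).1, vv_pos a b (by omega)]
      rw [show 2 - 1 = 1 from rfl]
      simp only [sk, ch, map_natCast]
      ring
  · obtain ⟨m, rfl⟩ : ∃ m, n = m + 3 := ⟨n - 3, by omega⟩
    rw [if_neg (by omega), vv_pos a b (by omega), derivative_sub, derivative_C_mul,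
      (der_ch a b (m + 3)).1, show m + 3 - 2 = m + 1 by omega, vv_pos a b (by omega),
      (der_ch a b (m + 1)).1, show m + 3 - 1 = (m + 1) + 1 by omega, vv_pos a b (by omega),
      (ch_eq_sk a b (m + 1)).1, show m + 1 + 2 = m + 3 by omega]
    have h1 : ((m : ℚ) + 1) ≠ 0 := by positivity
    have h2 : Polynomial.C (((m + 3 : ℕ) : ℚ) * a / (((m + 3 : ℕ) : ℚ) - 2)) *
        (((m + 1 : ℕ) : ℚ[X]) * sk a b (m + 1)) =
        Polynomial.C (((m + 3 : ℕ) : ℚ)) * (Polynomial.C a * sk a b (m + 1)) := by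
      have h3 : ((m + 1 : ℕ) : ℚ[X]) = Polynomial.C (((m + 1 : ℕ) : ℚ)) := by
        rw [map_natCast]
      rw [h3, ← mul_assoc, ← mul_assoc, ← Polynomial.C_mul, ← Polynomial.C_mul]
      congr 2
      push_cast
      have h4 : (m : ℚ) + 3 - 2 = m + 1 := by ring
      rw [h4]
      field_simp
    rw [h2, map_natCast]
    ring

lemma gg_zero : gg a b 0 = 1 := by
  unfold gg kp
  simp [vv_zero]

lemma gg_monic (n : ℕ) : (gg a b n).Monic ∧ (gg a b n).natDegree = n := by
  obtain ⟨h1, h2⟩ := vv_monic a b n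
  unfold gg
  rcases lt_or_ge n 3 with h | h
  · unfold kp
    rw [if_pos h, Polynomial.C_0, zero_mul, sub_zero]
    exact ⟨h1, h2⟩
  · have h3 : (Polynomial.C (kp a n) * vv a b (n - 2)).natDegree < n := by
      refine lt_of_le_of_lt (natDegree_C_mul_le _ _) ?_
      rw [(vv_monic a b (n - 2)).2]
      omega
    have h4 : (Polynomial.C (kp a n) * vv a b (n - 2)).degree < (vv a b n).degree := by
      rw [degree_eq_natDegree h1.ne_zero, h2]
      exact lt_of_le_of_lt degree_le_natDegree (by exact_mod_cast h3)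
    refine ⟨h1.sub_of_left h4, ?_⟩
    rw [natDegree_sub_eq_left_of_natDegree_lt (by rw [h2]; exact h3), h2]

lemma br_gg (m n : ℕ) (hm : 1 ≤ m) (hn : 1 ≤ n) : br (La a b) (gg a b m) (gg a b n) =
    n * (J a b m (n - 1) - kp a m * J a b (m - 2) (n - 1)) -
      m * (J a b (m - 1) n - kp a n * J a b (m - 1) (n - 2)) := by
  rw [br_apply, gg_der a b m hm, gg_der a b n hn]
  unfold J
  have h1 : gg a b m * (Polynomial.C (n : ℚ) * vv a b (n - 1)) -
      Polynomial.C (m : ℚ) * vv a b (m - 1) * gg a b n =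
      (n : ℚ) • (vv a b m * vv a b (n - 1) - kp a m • (vv a b (m - 2) * vv a b (n - 1))) -
      (m : ℚ) • (vv a b (m - 1) * vv a b n - kp a n • (vv a b (m - 1) * vv a b (n - 2))) := by
    unfold gg
    simp only [Polynomial.smul_eq_C_mul]
    ring
  rw [h1]
  simp only [map_sub, map_smul, smul_eq_mul]

lemma br_gg_zero (n : ℕ) (hn : 1 ≤ n) : br (La a b) (gg a b 0) (gg a b n) =
    if n = 1 then 1 else 0 := by
  rw [br_apply, gg_zero, gg_der a b n hn, derivative_one, zero_mul, sub_zero, one_mul]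
  have h1 : Polynomial.C (n : ℚ) * vv a b (n - 1) =
      (n : ℚ) • (vv a b 0 * vv a b (n - 1)) := by
    rw [vv_zero, one_mul, Polynomial.smul_eq_C_mul]
  rw [h1, map_smul]
  change (n : ℚ) • J a b 0 (n - 1) = _
  rw [J_eq]
  by_cases h : n = 1
  · subst h
    simp
  · rw [if_neg (by omega), if_neg h]
    simp

lemma br_gg_far (m n : ℕ) (h : m < n) (h1 : n ≠ m + 1) :
    br (La a b) (gg a b m) (gg a b n) = 0 := by
  rcases Nat.eq_zero_or_pos m with hm | hm
  · subst hm
    rw [br_gg_zero a b n (by omega), if_neg (by omega)]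
  · rw [br_gg a b m n hm (by omega), J_eq, J_eq, J_eq, J_eq, if_neg (by omega),
      if_neg (by omega), if_neg (by omega)]
    by_cases h2 : m - 1 = n - 2
    · omega
    · rw [if_neg h2]
      ring

lemma br_gg_near (k : ℕ) : br (La a b) (gg a b (2 * k + 2)) (gg a b (2 * k + 2 + 1)) =
    2 * a ^ (2 * k + 2) * (2 * k + 3) * (4 * k + 3) / (2 * k + 1) := by
  rw [br_gg a b _ _ (by omega) (by omega), J_eq, J_eq, J_eq, J_eq, if_pos (by omega),
    if_neg (c := 2 * k + 2 = 0) (by omega), if_neg (by omega), if_neg (by omega),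
    if_pos (by omega), if_neg (by omega)]
  unfold kp
  rw [if_neg (c := 2 * k + 2 + 1 < 3) (by omega), show 2 * k + 2 - 1 = 2 * k + 1 by omega]
  have h1 : (2 * (k : ℚ) + 1) ≠ 0 := by positivity
  have h2 : (2 * (k : ℚ) + 2 + 1 - 2) = 2 * k + 1 := by ring
  push_cast
  rw [h2]
  field_simp
  ring

theorem pf_La (n : ℕ) : pfSum (hk (La a b) (n + 1)) =
    (((n + 1).factorial * 2 ^ (n + 1) : ℕ) : ℚ) *
      ∏ k ∈ range n, (2 * a ^ (2 * k + 2) * (2 * k + 3) * (4 * k + 3) / (2 * k + 1)) := by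
  rw [pf_hk (La a b) (gg a b) (fun i => (gg_monic a b i).1) (fun i => (gg_monic a b i).2),
    Fin.prod_univ_succ, ← Fin.prod_univ_eq_prod_range
      (fun k => (2 * a ^ (2 * k + 2) * (2 * k + 3) * (4 * k + 3) / (2 * k + 1) : ℚ))]
  · congr 1
    have h0 : br (La a b) (gg a b (2 * ((0 : Fin (n + 1)) : ℕ)))
        (gg a b (2 * ((0 : Fin (n + 1)) : ℕ) + 1)) = 1 := by
      rw [Fin.val_zero, mul_zero, br_gg_zero a b _ (by omega), if_pos (by omega)]
    rw [h0, one_mul]
    refine Finset.prod_congr rfl fun i _ => ?_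
    rw [Fin.val_succ, show 2 * (i.val + 1) = 2 * i.val + 2 by ring, br_gg_near]
  · intro i j hi hj
    rcases lt_trichotomy i j with h | h | h
    · exact br_gg_far a b _ _ h (by omega)
    · rw [h, br_self]
    · rw [br_anti, br_gg_far a b _ _ h (by omega), neg_zero]

end Pool.Agent.E8helper75.Pf
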