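import Pool.Agent.E8helper75.Gram

/-!
# Chebyshev polynomials and constant terms
-/

set_option autoImplicit false

namespace Pool.Agent.E8helper75.Pf

open Finset Polynomial LaurentPolynomial

variable {R : Type*} [CommRing R] (a b : R)

/-- the coefficient of `T ^ k` -/
noncomputable def cL (k : ℤ) : R[T;T⁻¹] →ₗ[R] R where
  toFun f := f.coeff k
  map_add' f g := by rw [AddMonoidAlgebra.coeff_add]; rfl
  map_smul' c f := by rw [AddMonoidAlgebra.coeff_smul]; rfl

/-- the variable -/
noncomputable def t : R[T;T⁻¹] := T 1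

/-- `a T⁻¹` -/
noncomputable def r : R[T;T⁻¹] := LaurentPolynomial.C a * T (-1)

lemma t_mul_r : t * r a = LaurentPolynomial.C a := by
  unfold t r
  rw [mul_left_comm, ← T_add]
  simp

lemma tr_pow (m n : ℕ) : (t ^ m * r a ^ n : R[T;T⁻¹]) =
    LaurentPolynomial.C (a ^ n) * T ((m : ℤ) - n) := by
  unfold t r
  rw [mul_pow, T_pow, T_pow, ← map_pow, mul_left_comm, ← T_add]
  congr 2
  ring

lemma cL_CT (k l : ℤ) (c : R) : cL k (LaurentPolynomial.C c * T l) = if l = k then c else 0 := by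
  rw [← LaurentPolynomial.smul_eq_C_mul, map_smul]
  change c • (T l).coeff k = _
  rw [T_apply]
  split_ifs <;> simp

lemma cL_tr (k : ℤ) (m n : ℕ) :
    cL k (t ^ m * r a ^ n : R[T;T⁻¹]) = if (m : ℤ) - n = k then a ^ n else 0 := by
  rw [tr_pow, cL_CT]

lemma cL_mul_T (k l : ℤ) (f : R[T;T⁻¹]) : cL k (f * T l) = cL (k - l) f := by
  induction f using LaurentPolynomial.induction_on' with
  | add p q hp hq => rw [add_mul, map_add, map_add, hp, hq]
  | C_mul_T n c =>
    rw [mul_assoc, ← T_add, cL_CT, cL_CT]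
    congr 1
    apply propext
    constructor <;> intro h <;> linarith

/-- `y = b + t + a / t` -/
noncomputable def Y : R[T;T⁻¹] := LaurentPolynomial.C b + t + r a

/-- the substitution `X ↦ Y` -/
noncomputable def Ph : R[X] →ₐ[R] R[T;T⁻¹] := Polynomial.aeval (Y a b)

lemma Ph_X : Ph a b X = Y a b := by
  unfold Ph
  rw [Polynomial.aeval_X]

lemma Ph_C (c : R) : Ph a b (Polynomial.C c) = LaurentPolynomial.C c := by
  unfold Ph
  rw [Polynomial.aeval_C]
  rfl

/-- Chebyshev polynomials of the first kind -/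
noncomputable def ch : ℕ → R[X]
  | 0 => 2
  | 1 => X - Polynomial.C b
  | n + 2 => (X - Polynomial.C b) * ch (n + 1) - Polynomial.C a * ch n

/-- Chebyshev polynomials of the second kind (shifted index) -/
noncomputable def sk : ℕ → R[X]
  | 0 => 0
  | 1 => 1
  | n + 2 => (X - Polynomial.C b) * sk (n + 1) - Polynomial.C a * sk n

lemma ch_eq_sk : ∀ n, ch a b (n + 1) = sk a b (n + 2) - Polynomial.C a * sk a b n ∧
    ch a b (n + 2) = sk a b (n + 3) - Polynomial.C a * sk a b (n + 1) := by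
  intro n
  induction n with
  | zero =>
    simp only [ch, sk]
    constructor <;> ring
  | succ n ih =>
    refine ⟨ih.2, ?_⟩
    rw [show n + 1 + 2 = (n + 1) + 2 by rfl, ch, ih.1, ih.2]
    simp only [sk]
    ring

lemma der_ch : ∀ n, derivative (ch a b n) = (n : R[X]) * sk a b n ∧
    derivative (ch a b (n + 1)) = ((n + 1 : ℕ) : R[X]) * sk a b (n + 1) := by
  intro n
  induction n with
  | zero =>
    constructor
    · simp [ch]
    · simp [ch, sk]
  | succ n ih =>
    refine ⟨ih.2, ?_⟩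
    rw [show n + 1 + 1 = n + 2 by rfl, ch, sk, derivative_sub, derivative_mul, derivative_mul,
      ih.1, ih.2, (ch_eq_sk a b n).1, sk]
    simp only [derivative_sub, derivative_X, derivative_C]
    push_cast
    ring

lemma Ph_ch : ∀ n, Ph a b (ch a b n) = t ^ n + r a ^ n ∧
    Ph a b (ch a b (n + 1)) = t ^ (n + 1) + r a ^ (n + 1) := by
  intro n
  induction n with
  | zero =>
    constructor
    · simp only [ch, pow_zero]
      rw [map_ofNat]
      norm_num
    · simp only [ch]
      rw [map_sub, Ph_X, Ph_C, Y]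
      ring
  | succ n ih =>
    refine ⟨ih.2, ?_⟩
    rw [show n + 1 + 1 = n + 2 by rfl, ch, map_sub, map_mul, map_mul, map_sub, Ph_X, Ph_C, Ph_C,
      ih.1, ih.2, Y, ← t_mul_r a]
    ring

/-- `t - a / t` -/
noncomputable def De : R[T;T⁻¹] := t - r a

lemma Ph_sk : ∀ n, Ph a b (sk a b n) * De a = t ^ n - r a ^ n ∧
    Ph a b (sk a b (n + 1)) * De a = t ^ (n + 1) - r a ^ (n + 1) := by
  intro n
  induction n with
  | zero =>
    constructor
    · simp [sk]
    · simp [sk, De]
  | succ n ih =>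
    refine ⟨ih.2, ?_⟩
    rw [show n + 1 + 1 = n + 2 by rfl, sk, map_sub, map_mul, map_mul, map_sub, Ph_X, Ph_C, Ph_C,
      Y, ← t_mul_r a]
    have h1 := ih.1
    have h2 := ih.2
    linear_combination (t + r a) * h2 - (t * r a) * h1

lemma Ph_der_ch (n : ℕ) : Ph a b (derivative (ch a b n)) * De a =
    (n : R[T;T⁻¹]) * (t ^ n - r a ^ n) := by
  rw [(der_ch a b n).1, map_mul, map_natCast, mul_assoc, (Ph_sk a b n).1]

lemma ch_monic [Nontrivial R] : ∀ n, (ch a b (n + 1)).Monic ∧ (ch a b (n + 1)).natDegree = n + 1 ∧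
    (ch a b (n + 2)).Monic ∧ (ch a b (n + 2)).natDegree = n + 2 := by
  intro n
  induction n with
  | zero =>
    have h1 : (ch a b 1).Monic := by
      simp only [ch]
      exact monic_X_sub_C b
    have h2 : (ch a b 1).natDegree = 1 := by
      simp only [ch]
      exact natDegree_X_sub_C b
    have h3 : ((X - Polynomial.C b) * (X - Polynomial.C b)).Monic :=
      (monic_X_sub_C b).mul (monic_X_sub_C b)
    have h4 : ((X - Polynomial.C b) * (X - Polynomial.C b)).natDegree = 2 := by
      rw [(monic_X_sub_C b).natDegree_mul (monic_X_sub_C b), natDegree_X_sub_C]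
    have h5 : (Polynomial.C a * 2 : R[X]).natDegree < 2 := by
      have : (Polynomial.C a * 2 : R[X]) = Polynomial.C (a * 2) := by
        rw [Polynomial.C_mul]
        rfl
      rw [this, natDegree_C]
      norm_num
    have h6 : (Polynomial.C a * 2 : R[X]).degree <
        ((X - Polynomial.C b) * (X - Polynomial.C b)).degree := by
      rw [degree_eq_natDegree h3.ne_zero, h4]
      exact lt_of_le_of_lt degree_le_natDegree (by exact_mod_cast h5)
    refine ⟨h1, h2, ?_, ?_⟩
    · simp only [ch]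
      exact h3.sub_of_left h6
    · simp only [ch]
      rw [natDegree_sub_eq_left_of_natDegree_lt (by rw [h4]; exact h5), h4]
  | succ n ih =>
    obtain ⟨h1, h2, h3, h4⟩ := ih
    refine ⟨h3, h4, ?_⟩
    have h5 : ((X - Polynomial.C b) * ch a b (n + 2)).Monic := (monic_X_sub_C b).mul h3
    have h6 : ((X - Polynomial.C b) * ch a b (n + 2)).natDegree = n + 3 := by
      rw [(monic_X_sub_C b).natDegree_mul h3, natDegree_X_sub_C, h4]
      ring
    have h7 : (Polynomial.C a * ch a b (n + 1)).natDegree < n + 3 := by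
      refine lt_of_le_of_lt (natDegree_C_mul_le _ _) ?_
      rw [h2]
      omega
    have h8 : (Polynomial.C a * ch a b (n + 1)).degree <
        ((X - Polynomial.C b) * ch a b (n + 2)).degree := by
      rw [degree_eq_natDegree h5.ne_zero, h6]
      exact lt_of_le_of_lt degree_le_natDegree (by exact_mod_cast h7)
    have e : ch a b (n + 1 + 2) = (X - Polynomial.C b) * ch a b (n + 2) -
      Polynomial.C a * ch a b (n + 1) := by rw [ch]
    rw [e]
    refine ⟨h5.sub_of_left h8, ?_⟩
    rw [natDegree_sub_eq_left_of_natDegree_lt (by rw [h6]; exact h7), h6]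

/-- the monic Chebyshev polynomials -/
noncomputable def vv (n : ℕ) : R[X] := if n = 0 then 1 else ch a b n

lemma vv_zero : vv a b 0 = 1 := rfl

lemma vv_pos {n : ℕ} (h : n ≠ 0) : vv a b n = ch a b n := by
  unfold vv
  rw [if_neg h]

lemma vv_monic [Nontrivial R] (n : ℕ) : (vv a b n).Monic ∧ (vv a b n).natDegree = n := by
  rcases n with _ | n
  · rw [vv_zero]
    exact ⟨monic_one, natDegree_one⟩
  · rw [vv_pos a b (by omega)]
    exact ⟨(ch_monic a b n).1, (ch_monic a b n).2.1⟩

/-- the functional `f ↦ [t⁰] f(y) ω` -/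
noncomputable def Lw (ω : R[T;T⁻¹]) : R[X] →ₗ[R] R where
  toFun f := cL 0 (Ph a b f * ω)
  map_add' f g := by rw [map_add, add_mul, map_add]
  map_smul' c f := by rw [map_smul, smul_mul_assoc, map_smul]; rfl

lemma Lw_apply (ω : R[T;T⁻¹]) (f : R[X]) : Lw a b ω f = cL 0 (Ph a b f * ω) := rfl

lemma Lw_X_pow (ω : R[T;T⁻¹]) (n : ℕ) : Lw a b ω (X ^ n) = cL 0 (Y a b ^ n * ω) := by
  rw [Lw_apply, map_pow, Ph_X]

lemma br_ch (ρ : R[T;T⁻¹]) (m n : ℕ) : br (Lw a b (De a * ρ)) (ch a b m) (ch a b n) =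
    cL 0 ((((n : R[T;T⁻¹]) - (m : R[T;T⁻¹])) * (t ^ (m + n) * r a ^ 0)
      - ((n : R[T;T⁻¹]) + (m : R[T;T⁻¹])) * (t ^ m * r a ^ n)
      + ((n : R[T;T⁻¹]) + (m : R[T;T⁻¹])) * (t ^ n * r a ^ m)
      - ((n : R[T;T⁻¹]) - (m : R[T;T⁻¹])) * (t ^ 0 * r a ^ (m + n))) * ρ) := by
  rw [br_apply, Lw_apply, map_sub, map_mul (Ph a b), map_mul (Ph a b)]
  have h1 := Ph_der_ch a b m
  have h2 := Ph_der_ch a b n
  have h3 := (Ph_ch a b m).1
  have h4 := (Ph_ch a b n).1
  congr 1
  calc (Ph a b (ch a b m) * Ph a b (derivative (ch a b n)) -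
      Ph a b (derivative (ch a b m)) * Ph a b (ch a b n)) * (De a * ρ)
      = (Ph a b (ch a b m) * (Ph a b (derivative (ch a b n)) * De a) -
      (Ph a b (derivative (ch a b m)) * De a) * Ph a b (ch a b n)) * ρ := by ring
    _ = _ := by
      rw [h1, h2, h3, h4]
      ring

lemma br_one_ch (ρ : R[T;T⁻¹]) (n : ℕ) : br (Lw a b (De a * ρ)) 1 (ch a b n) =
    cL 0 (((n : R[T;T⁻¹]) * (t ^ n * r a ^ 0) - (n : R[T;T⁻¹]) * (t ^ 0 * r a ^ n)) * ρ) := by
  rw [br_apply, Lw_apply, derivative_one, zero_mul, sub_zero, one_mul]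
  have h2 := Ph_der_ch a b n
  congr 1
  calc Ph a b (derivative (ch a b n)) * (De a * ρ)
      = (Ph a b (derivative (ch a b n)) * De a) * ρ := by ring
    _ = _ := by
      rw [h2]
      ring

end Pool.Agent.E8helper75.Pf
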