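import Pool.Agent.E8helper75.PfFin

/-!
# Hankel type Pfaffians and skew-orthogonal polynomials
-/

set_option autoImplicit false

namespace Pool.Agent.E8helper75.Pf

open Finset Matrix Polynomial

variable {R : Type*} [CommRing R] {n : ℕ}

/-- the skew-symmetric form `L (p q' - p' q)` -/
noncomputable def br (L : R[X] →ₗ[R] R) : R[X] →ₗ[R] R[X] →ₗ[R] R :=
  LinearMap.mk₂ R (fun p q => L (p * derivative q - derivative p * q))
    (fun p p' q => by simp only [map_add, map_sub, add_mul]; ring)
    (fun c p q => by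
      simp only [map_sub, smul_mul_assoc, map_smul, smul_sub])
    (fun p q q' => by simp only [map_add, map_sub, mul_add]; ring)
    (fun c p q => by
      simp only [map_sub, mul_smul_comm, map_smul, smul_sub])

lemma br_apply (L : R[X] →ₗ[R] R) (p q : R[X]) :
    br L p q = L (p * derivative q - derivative p * q) := rfl

lemma br_X_pow (L : R[X] →ₗ[R] R) (k l : ℕ) :
    br L (X ^ k) (X ^ l) = ((l : R) - k) * L (X ^ (k + l - 1)) := by
  rw [br_apply, derivative_X_pow, derivative_X_pow, map_sub]
  have h1 : X ^ k * (C (l : R) * X ^ (l - 1)) = (l : R) • X ^ (k + l - 1) := by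
    rcases Nat.eq_zero_or_pos l with h | h
    · subst h
      simp
    · rw [show k + l - 1 = k + (l - 1) by omega, pow_add, smul_eq_C_mul]
      ring
  have h2 : C (k : R) * X ^ (k - 1) * X ^ l = (k : R) • X ^ (k + l - 1) := by
    rcases Nat.eq_zero_or_pos k with h | h
    · subst h
      simp
    · rw [show k + l - 1 = (k - 1) + l by omega, pow_add, smul_eq_C_mul]
      ring
  rw [h1, h2, map_smul, map_smul, smul_eq_mul, smul_eq_mul]
  ring

/-- the matrix `(j - i) L (X ^ (i + j - 1))` -/
noncomputable def hk (L : R[X] →ₗ[R] R) (n : ℕ) : Matrix (Fin (2 * n)) (Fin (2 * n)) R :=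
  Matrix.of fun x y => ((y.val : R) - x.val) * L (X ^ (x.val + y.val - 1))

/-- the coefficients of the polynomials `w i` -/
noncomputable def cf (w : ℕ → R[X]) (n : ℕ) : Matrix (Fin (2 * n)) (Fin (2 * n)) R :=
  Matrix.of fun x y => (w x.val).coeff y.val

theorem gram_eq (L : R[X] →ₗ[R] R) (w : ℕ → R[X]) (hd : ∀ i, (w i).natDegree = i)
    (x y : Fin (2 * n)) :
    (cf w n * hk L n * (cf w n)ᵀ) x y = br L (w x.val) (w y.val) := by
  have h1 : ∀ x : Fin (2 * n), w x.val = ∑ k : Fin (2 * n), (w x.val).coeff k.val • X ^ k.val := by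
    intro x
    have h2 := Polynomial.as_sum_range' (w x.val) (2 * n) (by rw [hd]; exact x.isLt)
    rw [← Fin.sum_univ_eq_sum_range (fun i => monomial i ((w x.val).coeff i))] at h2
    refine h2.trans (Finset.sum_congr rfl fun k _ => ?_)
    rw [← C_mul_X_pow_eq_monomial, smul_eq_C_mul]
  have h3 : br L (w x.val) (w y.val) = ∑ l : Fin (2 * n), ∑ k : Fin (2 * n),
      (w x.val).coeff k.val * ((w y.val).coeff l.val *
        (((l.val : R) - k.val) * L (X ^ (k.val + l.val - 1)))) := by
    conv_lhs => rw [h1 x, h1 y]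
    rw [map_sum]
    refine Finset.sum_congr rfl fun l _ => ?_
    rw [map_sum (br L), LinearMap.sum_apply]
    refine Finset.sum_congr rfl fun k _ => ?_
    rw [map_smul, LinearMap.map_smul, LinearMap.smul_apply, br_X_pow, smul_eq_mul, smul_eq_mul]
    ring
  rw [h3, Matrix.mul_apply]
  refine Finset.sum_congr rfl fun l _ => ?_
  rw [Matrix.mul_apply, Finset.sum_mul]
  refine Finset.sum_congr rfl fun k _ => ?_
  simp only [cf, hk, Matrix.of_apply, Matrix.transpose_apply]
  ring

theorem det_cf [Nontrivial R] (w : ℕ → R[X]) (hw : ∀ i, (w i).Monic)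
    (hd : ∀ i, (w i).natDegree = i) : (cf w n).det = 1 := by
  rw [Matrix.det_of_isLowerTriangular]
  · refine Finset.prod_eq_one fun i _ => ?_
    have := hw i.val
    rw [Polynomial.Monic, Polynomial.leadingCoeff, hd] at this
    exact this
  · intro i j hij
    have hij' : i.val < j.val := hij
    simp only [cf, Matrix.of_apply]
    exact Polynomial.coeff_eq_zero_of_natDegree_lt (by rw [hd]; exact hij')

theorem pf_hk [Nontrivial R] (L : R[X] →ₗ[R] R) (w : ℕ → R[X]) (hw : ∀ i, (w i).Monic)
    (hd : ∀ i, (w i).natDegree = i)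
    (h0 : ∀ i j, i + 1 ≠ j → j + 1 ≠ i → br L (w i) (w j) = 0) :
    pfSum (hk L n) = ((n.factorial * 2 ^ n : ℕ) : R) *
      ∏ i : Fin n, br L (w (2 * i)) (w (2 * i + 1)) := by
  have h1 := pfSum_congr (cf w n) (hk L n)
  rw [det_cf w hw hd, one_mul] at h1
  rw [← h1, pfSum_tridiag]
  · congr 1
    refine Finset.prod_congr rfl fun i _ => ?_
    rw [gram_eq L w hd]
    rfl
  · intro x y hxy hyx
    rw [gram_eq L w hd]
    exact h0 _ _ hxy hyx
  · intro i
    rw [gram_eq L w hd, gram_eq L w hd, br_apply, br_apply, ← map_neg]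
    congr 1
    ring

end Pool.Agent.E8helper75.Pf
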