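import Pool.Agent.E8helper75.Arc

/-!
# Moments
-/

set_option autoImplicit false

namespace Pool.Agent.E8helper75.Pf

open Finset Polynomial LaurentPolynomial

section general

variable {R : Type*} [CommRing R] (a b : R)

lemma cL_toLaurent (j : ℕ) (P : R[X]) : cL (j : ℤ) (toLaurent P) = P.coeff j := by
  induction P using Polynomial.induction_on' with
  | add p q hp hq => rw [map_add, map_add, hp, hq, Polynomial.coeff_add]
  | monomial n c =>
    rw [Polynomial.toLaurent_C_mul_T, cL_CT, Polynomial.coeff_monomial]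
    congr 1
    apply propext
    exact Nat.cast_inj

lemma Y_pow (m : ℕ) : Y a (1 + a) ^ m =
    toLaurent (((1 + X) * (X + Polynomial.C a)) ^ m) * T (-(m : ℤ)) := by
  have h1 : Y a (1 + a) = toLaurent ((1 + X) * (X + Polynomial.C a)) * T (-1) := by
    rw [map_mul, map_add, map_add, map_one, toLaurent_X, toLaurent_C]
    unfold Y t r
    rw [map_add, map_one]
    have h2 : (T 1 * T (-1) : R[T;T⁻¹]) = 1 := by
      rw [← T_add]
      simp
    linear_combination (-(1 + LaurentPolynomial.C a) - T 1) * h2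
  rw [h1, mul_pow, ← map_pow, T_pow]
  congr 2
  ring

lemma cL_Y_pow (m k : ℕ) (P : R[X]) : cL (k : ℤ) (Y a (1 + a) ^ m * toLaurent P) =
    ((((1 + X) * (X + Polynomial.C a)) ^ m) * P).coeff (m + k) := by
  rw [Y_pow, mul_right_comm, ← map_mul, cL_mul_T, ← cL_toLaurent]
  congr 2
  push_cast
  ring

lemma coeff_mm (m k : ℕ) : (((1 + X) * (X + Polynomial.C a)) ^ m).coeff (m + k) =
    ∑ i ∈ range (m + 1), ((m.choose (i + k) : R) * (m.choose i)) * a ^ i := by
  rw [mul_pow, Polynomial.coeff_mul, Finset.Nat.sum_antidiagonal_eq_sum_range_succ_mk,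
    show (m + k).succ = k + (m + 1) by omega, Finset.sum_range_add]
  have h1 : ∑ x ∈ range k, ((1 + X : R[X]) ^ m).coeff x *
      ((X + Polynomial.C a) ^ m).coeff (m + k - x) = 0 := by
    refine Finset.sum_eq_zero fun x hx => ?_
    rw [Finset.mem_range] at hx
    rw [Polynomial.coeff_X_add_C_pow, Nat.choose_eq_zero_of_lt (by omega)]
    simp
  rw [h1, zero_add]
  refine Finset.sum_congr rfl fun i hi => ?_
  rw [Finset.mem_range] at hi
  rw [Polynomial.coeff_one_add_X_pow, Polynomial.coeff_X_add_C_pow,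
    show m + k - (k + i) = m - i by omega, show m - (m - i) = i by omega,
    Nat.choose_symm (by omega), add_comm k i]
  ring

/-- the moments of the semicircle functional -/
lemma Ls_X_pow (m : ℕ) : Ls a (1 + a) (X ^ m) =
    ∑ i ∈ range (m + 1), (((m.choose i : R) * (m.choose i)) * a ^ i) -
    a * ∑ i ∈ range (m + 1), (((m.choose (i + 2) : R) * (m.choose i)) * a ^ i) := by
  unfold Ls
  rw [Lw_X_pow, ← mul_assoc, cL_mul_T]
  have h1 : Y a (1 + a) ^ m * De a = Y a (1 + a) ^ m * T 1 -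
      LaurentPolynomial.C a * (Y a (1 + a) ^ m * T (-1)) := by
    unfold De t r
    ring
  rw [h1, map_sub, cL_C_mul, cL_mul_T, cL_mul_T]
  have h2 := cL_Y_pow a m 0 1
  have h3 := cL_Y_pow a m 2 1
  rw [map_one, mul_one, mul_one, coeff_mm] at h2 h3
  rw [show (0 : ℤ) - -1 - 1 = ((0 : ℕ) : ℤ) by norm_num,
    show (0 : ℤ) - -1 - -1 = ((2 : ℕ) : ℤ) by norm_num, h2, h3]
  rfl

end general

/-- Catalan numbers `C_k = binom(2k, k) / (k + 1)` -/
def Cat (k : ℕ) : ℚ := 1 / ((k : ℚ) + 1) * ((2 * k).choose k : ℚ)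

lemma Cat_eq (k : ℕ) : Cat k = ((2 * k).choose k : ℚ) - ((2 * k).choose (k + 1) : ℚ) := by
  unfold Cat
  have h1 : ((2 * k).choose (k + 1) : ℚ) * (k + 1) = ((2 * k).choose k : ℚ) * k := by
    have := Nat.choose_succ_right_eq (2 * k) k
    rw [show 2 * k - k = k by omega] at this
    exact_mod_cast this
  have h2 : ((k : ℚ) + 1) ≠ 0 := by positivity
  field_simp
  linear_combination h1

/-- Motzkin numbers -/
def Mot (n : ℕ) : ℚ := ∑ k ∈ range (n + 1), (n.choose (2 * k) : ℚ) * Cat k

/-- central Delannoy numbers -/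
def Del (n : ℕ) : ℚ := ∑ k ∈ range (n + 1), (n.choose k : ℚ) * ((n + k).choose k : ℚ)

/-- Schröder numbers -/
def Sch (n : ℕ) : ℚ := ∑ k ∈ range (n + 1), ((n + k).choose (2 * k) : ℚ) * Cat k

/-- Narayana polynomials -/
noncomputable def Nar (n : ℕ) : ℚ[X] :=
  if n = 0 then 1 else ∑ k ∈ range (n + 1), Polynomial.C ((1 / (n : ℚ)) * (n.choose k : ℚ) *
    (if k = 0 then 0 else (n.choose (k - 1) : ℚ))) * X ^ k

lemma nar_id (m i : ℕ) : (1 / ((m : ℚ) + 1)) * ((m + 1).choose (i + 1) : ℚ) * ((m + 1).choose i : ℚ) =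
    (m.choose i : ℚ) * (m.choose i) -
      (if i = 0 then 0 else (m.choose (i + 1) : ℚ) * (m.choose (i - 1))) := by
  have h0 : ((m : ℚ) + 1) ≠ 0 := by positivity
  have h0' : ((i : ℚ) + 1) ≠ 0 := by positivity
  have h1 : ((m + 1).choose (i + 1) : ℚ) * (i + 1) = (m + 1) * (m.choose i : ℚ) := by
    have := Nat.add_one_mul_choose_eq m i
    have h : ((m + 1 : ℕ) : ℚ) * (m.choose i) = ((m + 1).choose (i + 1) : ℚ) * ((i + 1 : ℕ) : ℚ) := by
      exact_mod_cast this
    push_cast at h
    linear_combination -h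
  have h2 : (m.choose (i + 1) : ℚ) * (i + 1) = (m.choose i : ℚ) * (m - i) := by
    rcases le_or_gt i m with h | h
    · have := Nat.choose_succ_right_eq m i
      have h' : (m.choose (i + 1) : ℚ) * ((i + 1 : ℕ) : ℚ) = (m.choose i : ℚ) * ((m - i : ℕ) : ℚ) := by
        exact_mod_cast this
      rw [Nat.cast_sub h] at h'
      push_cast at h'
      exact h'
    · rw [Nat.choose_eq_zero_of_lt h, Nat.choose_eq_zero_of_lt (by omega)]
      simp
  have e1 : ((m + 1).choose (i + 1) : ℚ) = (m + 1) * (m.choose i : ℚ) / (i + 1) := by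
    rw [eq_div_iff h0']
    exact h1
  have e2 : (m.choose (i + 1) : ℚ) = (m.choose i : ℚ) * (m - i) / (i + 1) := by
    rw [eq_div_iff h0']
    exact h2
  rcases Nat.eq_zero_or_pos i with hi | hi
  · subst hi
    rw [if_pos rfl, e1]
    simp
    field_simp
  · rw [if_neg (by omega), e1, e2]
    obtain ⟨j, rfl⟩ : ∃ j, i = j + 1 := ⟨i - 1, by omega⟩
    rw [show j + 1 - 1 = j by omega, Nat.choose_succ_succ m j]
    have h3 : (m.choose (j + 1) : ℚ) * (j + 1) = (m.choose j : ℚ) * (m - j) := by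
      rcases le_or_gt j m with h | h
      · have := Nat.choose_succ_right_eq m j
        have h' : (m.choose (j + 1) : ℚ) * ((j + 1 : ℕ) : ℚ) =
            (m.choose j : ℚ) * ((m - j : ℕ) : ℚ) := by
          exact_mod_cast this
        rw [Nat.cast_sub h] at h'
        push_cast at h'
        exact h'
      · rw [Nat.choose_eq_zero_of_lt h, Nat.choose_eq_zero_of_lt (by omega)]
        simp
    push_cast
    field_simp
    linear_combination (-(m.choose (j + 1) : ℚ)) * h3

end Pool.Agent.E8helper75.Pf
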