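import Pool.Agent.E8helper75.Mom

/-!
# Moments: the four sequences
-/

set_option autoImplicit false

namespace Pool.Agent.E8helper75.Pf

open Finset Polynomial LaurentPolynomial

/-- shift of the sum -/
lemma sum_shift {M : Type*} [CommRing M] (m : ℕ) (x : M) :
    x * ∑ i ∈ range (m + 1), (((m.choose (i + 2) : M) * (m.choose i)) * x ^ i) =
    ∑ i ∈ range (m + 1), (if i = 0 then 0 else (m.choose (i + 1) : M) * (m.choose (i - 1))) * x ^ i := by
  rw [Finset.sum_range_succ, Nat.choose_eq_zero_of_lt (show m < m + 2 by omega),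
    Finset.sum_range_succ' (fun i => (if i = 0 then 0 else
      (m.choose (i + 1) : M) * (m.choose (i - 1))) * x ^ i) m]
  simp only [Nat.cast_zero, zero_mul, add_zero, if_true]
  rw [Finset.mul_sum]
  refine Finset.sum_congr rfl fun i _ => ?_
  rw [if_neg (by omega), show i + 1 - 1 = i by omega, show i + 1 + 1 = i + 2 by omega]
  ring

lemma Nar_succ (m : ℕ) : Nar (m + 1) = X * Ls (R := ℚ[X]) X (1 + X) (X ^ m) := by
  rw [Ls_X_pow, sum_shift, ← Finset.sum_sub_distrib, Finset.mul_sum]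
  unfold Nar
  rw [if_neg (by omega), Finset.sum_range_succ' _ (m + 1)]
  simp only [if_true, mul_zero, Polynomial.C_0, zero_mul, add_zero]
  refine Finset.sum_congr rfl fun i _ => ?_
  rw [if_neg (by omega), show i + 1 - 1 = i by omega]
  have h := nar_id m i
  push_cast at h ⊢
  rw [h]
  have h1 : ∀ n : ℕ, (n : ℚ[X]) = Polynomial.C (n : ℚ) := fun n => by rw [map_natCast]
  rw [h1, h1, h1]
  by_cases hi : i = 0
  · rw [if_pos hi, if_pos hi]
    simp only [sub_zero, zero_mul, Polynomial.C_mul]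
    ring
  · rw [if_neg hi, if_neg hi]
    simp only [Polynomial.C_mul, Polynomial.C_sub]
    ring

/-- the central coefficients of `(1 + X) ^ p (2 + X) ^ m` -/
lemma coeff_two (p m q : ℕ) : (((1 + X) ^ p * (X + Polynomial.C 2) ^ m : ℚ[X])).coeff q =
    ∑ k ∈ range (m + 1), (m.choose k : ℚ) * ((p + k).choose q : ℚ) := by
  have h1 : (X + Polynomial.C 2 : ℚ[X]) = (1 + X) + 1 := by
    have : (Polynomial.C 2 : ℚ[X]) = 1 + 1 := by
      rw [show (2 : ℚ) = 1 + 1 by norm_num, Polynomial.C_add, Polynomial.C_1]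
    rw [this]
    ring
  rw [h1, add_pow (1 + X : ℚ[X]) 1 m, Finset.mul_sum, Polynomial.finsetSum_coeff]
  refine Finset.sum_congr rfl fun k _ => ?_
  rw [one_pow, mul_one, ← mul_assoc, ← pow_add, ← Polynomial.coeff_one_add_X_pow ℚ (p + k) q]
  have h2 : ((m.choose k : ℕ) : ℚ[X]) = Polynomial.C (m.choose k : ℚ) := by rw [map_natCast]
  rw [h2, Polynomial.coeff_mul_C]
  ring

lemma cL_two (m k : ℕ) (P : ℚ[X]) : cL (k : ℤ) (Y 2 3 ^ m * toLaurent P) =
    ((1 + X) ^ m * (X + Polynomial.C 2) ^ m * P).coeff (m + k) := by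
  have h := cL_Y_pow (2 : ℚ) m k P
  rw [show (1 : ℚ) + 2 = 3 by norm_num, mul_pow] at h
  exact h

lemma Del_eq (m : ℕ) : Del m = La 2 3 (X ^ m) := by
  rw [La_apply, map_pow, Ph_X]
  have h := cL_two m 0 1
  rw [map_one, mul_one, mul_one, coeff_two] at h
  rw [show (0 : ℤ) = ((0 : ℕ) : ℤ) by norm_num, h]
  unfold Del
  refine Finset.sum_congr rfl fun k _ => ?_
  rw [add_zero, Nat.choose_symm_add]

lemma Sch_eq (m : ℕ) : Sch (m + 1) = Lt 2 3 (X ^ m) := by
  unfold Lt
  rw [Lw_X_pow]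
  have h1 : (Y 2 3 ^ m * (De 2 * -(T 1 + 1)) : ℚ[T;T⁻¹]) =
      Y 2 3 ^ (m + 1) * toLaurent 1 - Y 2 3 ^ m * toLaurent ((1 + X) ^ 2) := by
    have h2 : (De 2 * -(T 1 + 1) : ℚ[T;T⁻¹]) = Y 2 3 - toLaurent ((1 + X) ^ 2) := by
      rw [map_pow, map_add, map_one, toLaurent_X]
      unfold De Y t r
      have h3 : (T 1 * T (-1) : ℚ[T;T⁻¹]) = 1 := by
        rw [← T_add]
        simp
      have h4 : (LaurentPolynomial.C (3 : ℚ)) = 1 + LaurentPolynomial.C 2 := by
        rw [show (3 : ℚ) = 1 + 2 by norm_num, map_add, map_one]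
      rw [h4]
      linear_combination (LaurentPolynomial.C 2) * h3
    rw [h2, map_one]
    ring
  rw [h1, map_sub]
  have e1 := cL_two (m + 1) 0 1
  have e2 := cL_two m 0 ((1 + X) ^ 2)
  rw [mul_one, coeff_two, add_zero] at e1
  rw [mul_right_comm, ← pow_add, coeff_two, add_zero] at e2
  rw [show (0 : ℤ) = ((0 : ℕ) : ℤ) by norm_num, e1, e2]
  unfold Sch
  simp_rw [Cat_eq, mul_sub]
  rw [Finset.sum_sub_distrib]
  congr 1
  · refine Finset.sum_congr rfl fun k hk => ?_
    rw [Finset.mem_range] at hk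
    have := Nat.choose_mul (n := m + 1 + k) (k := 2 * k) (s := k) (by omega)
    rw [show m + 1 + k - k = m + 1 by omega, show 2 * k - k = k by omega] at this
    have h' : ((m + 1 + k).choose (2 * k) : ℚ) * ((2 * k).choose k : ℚ) =
        ((m + 1 + k).choose k : ℚ) * ((m + 1).choose k : ℚ) := by exact_mod_cast this
    rw [h', Nat.choose_symm_add]
    ring
  · rw [Finset.sum_range_succ']
    have h0 : ((m + 1 + 0).choose (2 * 0) : ℚ) * ((2 * 0).choose (0 + 1) : ℚ) = 0 := by simp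
    rw [h0, add_zero]
    refine Finset.sum_congr rfl fun k hk => ?_
    rw [Finset.mem_range] at hk
    have := Nat.choose_mul (n := m + 1 + (k + 1)) (k := 2 * (k + 1)) (s := k + 1 + 1)
      (by omega)
    rw [show m + 1 + (k + 1) - (k + 1 + 1) = m by omega,
      show 2 * (k + 1) - (k + 1 + 1) = k by omega] at this
    have h' : ((m + 1 + (k + 1)).choose (2 * (k + 1)) : ℚ) *
        ((2 * (k + 1)).choose (k + 1 + 1) : ℚ) =
        ((m + 1 + (k + 1)).choose (k + 1 + 1) : ℚ) * (m.choose k : ℚ) := by exact_mod_cast this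
    rw [h', show m + 1 + (k + 1) = m + (k + 1 + 1) by omega,
      show m + 2 + k = m + (k + 1 + 1) by omega, Nat.choose_symm_add]
    ring

lemma sum_even_odd (f : ℕ → ℚ) (m : ℕ) :
    ∑ j ∈ range (2 * (m + 1)), f j = ∑ k ∈ range (m + 1), (f (2 * k) + f (2 * k + 1)) := by
  induction m with
  | zero => simp [Finset.sum_range_succ]
  | succ m ih =>
    rw [Finset.sum_range_succ _ (m + 1), ← ih, show 2 * (m + 1 + 1) = 2 * (m + 1) + 1 + 1 by ring,
      Finset.sum_range_succ, Finset.sum_range_succ]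
    ring

/-- the coefficients of the powers of `t + t⁻¹` -/
noncomputable def sj (j : ℕ) : ℚ := cL 1 (((t + r 1) ^ j : ℚ[T;T⁻¹]) * (t - r 1))

lemma sj_eq (j : ℕ) : sj j = ∑ i ∈ range (j + 1), (j.choose i : ℚ) *
    ((if 2 * i = j then 1 else 0) - (if 2 * i = j + 2 then 1 else 0)) := by
  unfold sj
  rw [add_pow, Finset.sum_mul, map_sum]
  refine Finset.sum_congr rfl fun i hi => ?_
  rw [Finset.mem_range] at hi
  have h1 : (t ^ i * r 1 ^ (j - i) * (j.choose i : ℚ[T;T⁻¹]) * (t - r 1) : ℚ[T;T⁻¹]) =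
      LaurentPolynomial.C (j.choose i : ℚ) * (t ^ (i + 1) * r 1 ^ (j - i) -
        t ^ i * r 1 ^ (j - i + 1)) := by
    rw [map_natCast]
    ring
  rw [h1, cL_C_mul, map_sub, cL_tr, cL_tr, one_pow, one_pow]
  have c1 : (((i + 1 : ℕ) : ℤ) - ((j - i : ℕ) : ℤ) = 1) ↔ 2 * i = j := by omega
  have c2 : ((i : ℤ) - ((j - i + 1 : ℕ) : ℤ) = 1) ↔ 2 * i = j + 2 := by omega
  simp only [c1, c2]

lemma sj_even (k : ℕ) : sj (2 * k) = Cat k := by
  rw [sj_eq, Cat_eq]
  simp_rw [mul_sub]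
  rw [Finset.sum_sub_distrib]
  congr 1
  · rw [Finset.sum_eq_single k]
    · rw [if_pos rfl, mul_one]
    · intro i _ hi
      rw [if_neg (by omega), mul_zero]
    · intro h
      rw [Finset.mem_range] at h
      omega
  · rw [Finset.sum_eq_single (k + 1)]
    · rw [if_pos (by ring), mul_one]
    · intro i _ hi
      rw [if_neg (by omega), mul_zero]
    · intro h
      rw [Finset.mem_range] at h
      rw [Nat.choose_eq_zero_of_lt (by omega)]
      simp

lemma sj_odd (k : ℕ) : sj (2 * k + 1) = 0 := by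
  rw [sj_eq]
  refine Finset.sum_eq_zero fun i _ => ?_
  rw [if_neg (by omega), if_neg (by omega)]
  simp

lemma Mot_eq (m : ℕ) : Mot m = Ls 1 1 (X ^ m) := by
  unfold Ls
  rw [Lw_X_pow, ← mul_assoc, cL_mul_T]
  have h1 : (Y 1 1 : ℚ[T;T⁻¹]) = (t + r 1) + 1 := by
    unfold Y
    rw [map_one]
    ring
  rw [h1, add_pow, Finset.sum_mul, map_sum]
  have h2 : ∀ j ∈ range (m + 1), cL (0 - -1) ((t + r 1) ^ j * 1 ^ (m - j) *
      ((m.choose j : ℕ) : ℚ[T;T⁻¹]) * De 1) = (m.choose j : ℚ) * sj j := by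
    intro j _
    have h3 : ((t + r 1) ^ j * 1 ^ (m - j) * ((m.choose j : ℕ) : ℚ[T;T⁻¹]) * De 1 : ℚ[T;T⁻¹]) =
        LaurentPolynomial.C (m.choose j : ℚ) * ((t + r 1) ^ j * (t - r 1)) := by
      rw [map_natCast, De]
      ring
    rw [h3, cL_C_mul]
    rfl
  rw [Finset.sum_congr rfl h2]
  have h4 : ∑ j ∈ range (m + 1), (m.choose j : ℚ) * sj j =
      ∑ j ∈ range (2 * (m + 1)), (m.choose j : ℚ) * sj j := by
    refine Finset.sum_subset (Finset.range_subset_range.2 (by omega)) fun j _ hj => ?_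
    rw [Finset.mem_range, not_lt] at hj
    rw [Nat.choose_eq_zero_of_lt (by omega)]
    simp
  rw [h4, sum_even_odd]
  unfold Mot
  refine Finset.sum_congr rfl fun k _ => ?_
  rw [sj_even, sj_odd, mul_zero, add_zero]

end Pool.Agent.E8helper75.Pf
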