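import Mathlib

/-!
# Pfaffians as sums over permutations
-/

set_option autoImplicit false

namespace Pool.Agent.E8helper75.Pf

open Finset Matrix Equiv

section generic

variable {R : Type*} [CommRing R] {α : Type*} [Fintype α] [DecidableEq α]

/-- `2 ^ n n!` times the Pfaffian, for rows and columns indexed by `α × Bool` -/
def pg (A : Matrix (α × Bool) (α × Bool) R) : R :=
  ∑ σ : Perm (α × Bool), ((Perm.sign σ : ℤ) : R) * ∏ i : α, A (σ (i, false)) (σ (i, true))

/-- pairs of functions -/
def pairEquiv : (α → (α × Bool) × (α × Bool)) ≃ (α × Bool → α × Bool) where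
  toFun f p := cond p.2 (f p.1).2 (f p.1).1
  invFun g i := (g (i, false), g (i, true))
  left_inv f := by
    funext i
    rfl
  right_inv g := by
    funext ⟨i, b⟩
    cases b <;> rfl

omit [DecidableEq α] in
lemma prod_bool (F : α × Bool → R) : ∏ p, F p = ∏ i : α, F (i, false) * F (i, true) := by
  rw [Fintype.prod_prod_type]
  refine Finset.prod_congr rfl fun i _ => ?_
  rw [Fintype.prod_bool, mul_comm]

theorem pg_congr (B A : Matrix (α × Bool) (α × Bool) R) :
    pg (B * A * Bᵀ) = B.det * pg A := by
  unfold pg
  have h1 : ∀ σ : Perm (α × Bool), ∏ i : α, (B * A * Bᵀ) (σ (i, false)) (σ (i, true)) =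
      ∑ g : α × Bool → α × Bool, (∏ i : α, A (g (i, false)) (g (i, true))) *
        ∏ p, B (σ p) (g p) := by
    intro σ
    have h2 : ∀ i : α, (B * A * Bᵀ) (σ (i, false)) (σ (i, true)) =
        ∑ q : (α × Bool) × (α × Bool), B (σ (i, false)) q.1 * A q.1 q.2 * B (σ (i, true)) q.2 := by
      intro i
      rw [Fintype.sum_prod_type_right (f := fun q : (α × Bool) × (α × Bool) =>
        B (σ (i, false)) q.1 * A q.1 q.2 * B (σ (i, true)) q.2), Matrix.mul_apply]
      refine Fintype.sum_congr _ _ fun l => ?_
      rw [Matrix.mul_apply, Finset.sum_mul]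
      rfl
    simp_rw [h2]
    rw [Finset.prod_univ_sum, Fintype.piFinset_univ]
    rw [← Equiv.sum_comp (pairEquiv (α := α))]
    refine Finset.sum_congr rfl fun f _ => ?_
    rw [prod_bool (fun p => B (σ p) (pairEquiv f p)), ← Finset.prod_mul_distrib]
    refine Finset.prod_congr rfl fun i _ => ?_
    simp only [pairEquiv, Equiv.coe_fn_mk, cond_false, cond_true]
    ring
  simp_rw [h1, Finset.mul_sum]
  rw [Finset.sum_comm]
  have h3 : ∀ g : α × Bool → α × Bool,
      ∑ σ : Perm (α × Bool), ((Perm.sign σ : ℤ) : R) *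
        ((∏ i : α, A (g (i, false)) (g (i, true))) * ∏ p, B (σ p) (g p)) =
      (∏ i : α, A (g (i, false)) (g (i, true))) * (B.submatrix id g).det := by
    intro g
    rw [Matrix.det_apply', Finset.mul_sum]
    refine Finset.sum_congr rfl fun σ _ => ?_
    simp only [Matrix.submatrix_apply, id]
    ring
  simp_rw [h3]
  symm
  apply Fintype.sum_of_injective (fun τ : Perm (α × Bool) => (τ : α × Bool → α × Bool))
    DFunLike.coe_injective
  · intro g hg
    have hni : ¬ Function.Injective g := by
      intro hi
      exact hg ⟨Equiv.ofBijective g (Finite.injective_iff_bijective.1 hi), rfl⟩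
    rw [Function.not_injective_iff] at hni
    obtain ⟨p, q, hpq, hne⟩ := hni
    rw [Matrix.det_zero_of_column_eq hne, mul_zero]
    intro i
    simp only [Matrix.submatrix_apply, hpq]
  · intro τ
    rw [Matrix.det_permute']
    ring

/-- the permutations of `α × Bool` that preserve the blocks -/
def emb (x : Perm α × (α → Perm Bool)) : Perm (α × Bool) :=
  (Equiv.prodCongrLeft (fun _ : Bool => x.1)) * (Equiv.prodCongrRight x.2)

omit [Fintype α] [DecidableEq α] in
lemma emb_apply (x : Perm α × (α → Perm Bool)) (i : α) (b : Bool) :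
    emb x (i, b) = (x.1 i, x.2 i b) := rfl

omit [Fintype α] [DecidableEq α] in
lemma emb_injective : Function.Injective (emb (α := α)) := by
  intro x y h
  have h1 : ∀ i b, (x.1 i, x.2 i b) = (y.1 i, y.2 i b) := fun i b => by
    rw [← emb_apply, ← emb_apply, h]
  refine Prod.ext ?_ ?_
  · ext i
    exact (Prod.ext_iff.1 (h1 i false)).1
  · funext i
    ext b
    exact (Prod.ext_iff.1 (h1 i b)).2

lemma sign_emb (x : Perm α × (α → Perm Bool)) :
    Perm.sign (emb x) = ∏ i, Perm.sign (x.2 i) := by
  unfold emb
  rw [Perm.sign_mul, Perm.sign_prodCongrLeft, Perm.sign_prodCongrRight, Fintype.prod_bool]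
  simp

lemma perm_bool (τ : Perm Bool) : (τ = 1 ∧ τ false = false ∧ τ true = true ∧ Perm.sign τ = 1) ∨
    (τ false = true ∧ τ true = false ∧ Perm.sign τ = -1) := by
  revert τ
  decide

theorem mem_range_emb (σ : Perm (α × Bool)) (h : ∀ i, (σ (i, false)).1 = (σ (i, true)).1) :
    ∃ x, emb x = σ := by
  have hb : ∀ i b c, (σ (i, b)).1 = (σ (i, c)).1 := by
    intro i b c
    cases b <;> cases c <;> simp [h]
  have hinj : Function.Injective (fun i => (σ (i, false)).1) := by
    intro i j hij
    by_contra hne
    simp only at hij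
    -- four distinct points in a block of two elements
    have key : ∀ k b c, (σ (k, b)).2 = (σ (k, c)).2 → b = c := by
      intro k b c hbc
      have := σ.injective (Prod.ext (hb k b c) hbc)
      exact (Prod.ext_iff.1 this).2
    -- the second coordinates of `σ (j, false)` is attained in block `i`
    have : ∃ b, (σ (i, b)).2 = (σ (j, false)).2 := by
      by_contra hcon
      push Not at hcon
      have h1 := hcon false
      have h2 := hcon true
      have h3 : (σ (i, false)).2 ≠ (σ (i, true)).2 := fun h => by
        have := key i _ _ h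
        simp at this
      revert h1 h2 h3
      cases (σ (i, false)).2 <;> cases (σ (i, true)).2 <;> cases (σ (j, false)).2 <;> simp
    obtain ⟨b, hb'⟩ := this
    have h5 : σ (i, b) = σ (j, false) := by
      refine Prod.ext ?_ hb'
      rw [hb i b false]
      exact hij
    have := σ.injective h5
    exact hne (Prod.ext_iff.1 this).1
  have hinj2 : ∀ i, Function.Injective (fun b => (σ (i, b)).2) := by
    intro i b c hbc
    have := σ.injective (Prod.ext (hb i b c) hbc)
    exact (Prod.ext_iff.1 this).2
  refine ⟨(Equiv.ofBijective _ (Finite.injective_iff_bijective.1 hinj),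
    fun i => Equiv.ofBijective _ (Finite.injective_iff_bijective.1 (hinj2 i))), ?_⟩
  ext ⟨i, b⟩
  · rw [emb_apply]
    exact hb i false b
  · rw [emb_apply]
    rfl

theorem pg_block (A : Matrix (α × Bool) (α × Bool) R) (d : α → R)
    (h0 : ∀ i j b c, i ≠ j → A (i, b) (j, c) = 0)
    (h1 : ∀ i, A (i, false) (i, true) = d i) (h2 : ∀ i, A (i, true) (i, false) = - d i) :
    pg A = (((Fintype.card α).factorial * 2 ^ Fintype.card α : ℕ) : R) * ∏ i, d i := by
  unfold pg
  have h3 : ∑ _x : Perm α × (α → Perm Bool), ∏ i, d i =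
      ∑ σ : Perm (α × Bool), ((Perm.sign σ : ℤ) : R) *
        ∏ i : α, A (σ (i, false)) (σ (i, true)) := by
    apply Fintype.sum_of_injective emb emb_injective
    · intro σ hσ
      have : ∃ i, (σ (i, false)).1 ≠ (σ (i, true)).1 := by
        by_contra hcon
        push Not at hcon
        exact hσ (mem_range_emb σ hcon)
      obtain ⟨i, hi⟩ := this
      rw [Finset.prod_eq_zero (Finset.mem_univ i), mul_zero]
      exact h0 _ _ _ _ hi
    · intro x
      rw [sign_emb]
      have h4 : ∀ i, A (emb x (i, false)) (emb x (i, true)) =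
          ((Perm.sign (x.2 i) : ℤ) : R) * d (x.1 i) := by
        intro i
        rw [emb_apply, emb_apply]
        rcases perm_bool (x.2 i) with ⟨-, e1, e2, e3⟩ | ⟨e1, e2, e3⟩
        · rw [e1, e2, e3, h1]
          simp
        · rw [e1, e2, e3, h2]
          simp
      rw [Finset.prod_congr rfl fun i _ => h4 i, Finset.prod_mul_distrib,
        Equiv.prod_comp x.1 d, ← mul_assoc]
      have h5 : (((∏ i, Perm.sign (x.2 i) : ℤˣ) : ℤ) : R) * ∏ i, ((Perm.sign (x.2 i) : ℤ) : R) = 1 := by
        rw [Units.coe_prod, Int.cast_prod, ← Finset.prod_mul_distrib]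
        refine Finset.prod_eq_one fun i _ => ?_
        rcases Int.units_eq_one_or (Perm.sign (x.2 i)) with e | e <;> rw [e] <;> simp
      rw [h5, one_mul]
  rw [← h3, Finset.sum_const, Finset.card_univ, Fintype.card_prod, Fintype.card_perm,
    Fintype.card_fun, Fintype.card_perm, Fintype.card_bool, nsmul_eq_mul]
  simp [Nat.factorial]

end generic

end Pool.Agent.E8helper75.Pf
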