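import Pool.Agent.E8helper75.Pf

/-!
# Pfaffians of matrices of even order, tridiagonal matrices
-/

set_option autoImplicit false

namespace Pool.Agent.E8helper75.Pf

open Finset Matrix Equiv

variable {R : Type*} [CommRing R] {n : ℕ}

/-- the index `2 i` -/
def ev (i : Fin n) : Fin (2 * n) := ⟨2 * i, by omega⟩

/-- the index `2 i + 1` -/
def od (i : Fin n) : Fin (2 * n) := ⟨2 * i + 1, by omega⟩

/-- `2 ^ n n!` times the Pfaffian -/
def pfSum (A : Matrix (Fin (2 * n)) (Fin (2 * n)) R) : R :=
  ∑ σ : Perm (Fin (2 * n)), ((Perm.sign σ : ℤ) : R) * ∏ i : Fin n, A (σ (ev i)) (σ (od i))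

/-- pairs of indices -/
def idx : Fin n × Bool ≃ Fin (2 * n) where
  toFun p := cond p.2 (od p.1) (ev p.1)
  invFun x := (⟨x / 2, by omega⟩, decide (x.val % 2 = 1))
  left_inv p := by
    obtain ⟨i, b⟩ := p
    cases b
    · simp [ev]
    · have h : (2 * i.val + 1) % 2 = 1 := by omega
      simp only [od, cond_true, Prod.mk.injEq, Fin.ext_iff, h, decide_true, and_true]
      omega
  right_inv x := by
    by_cases h : x.val % 2 = 1
    · simp only [h, decide_true, cond_true, od, Fin.ext_iff]
      omega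
    · simp only [h, decide_false, cond_false, ev, Fin.ext_iff]
      omega

lemma idx_false (i : Fin n) : idx (i, false) = ev i := rfl

lemma idx_true (i : Fin n) : idx (i, true) = od i := rfl

theorem pfSum_eq (A : Matrix (Fin (2 * n)) (Fin (2 * n)) R) :
    pfSum A = pg (A.submatrix idx idx) := by
  unfold pfSum pg
  symm
  refine Fintype.sum_equiv (Equiv.permCongr idx) _ _ fun σ => ?_
  rw [Perm.sign_permCongr]
  congr 1
  refine Finset.prod_congr rfl fun i _ => ?_
  rw [Equiv.permCongr_apply, Equiv.permCongr_apply, ← idx_false, ← idx_true,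
    Equiv.symm_apply_apply, Equiv.symm_apply_apply]
  rfl

theorem pfSum_congr (B A : Matrix (Fin (2 * n)) (Fin (2 * n)) R) :
    pfSum (B * A * Bᵀ) = B.det * pfSum A := by
  rw [pfSum_eq, pfSum_eq, ← Matrix.det_submatrix_equiv_self idx B, ← pg_congr]
  congr 1
  rw [← Matrix.submatrix_mul_equiv (B * A) Bᵀ idx idx idx,
    ← Matrix.submatrix_mul_equiv B A idx idx idx]
  rfl

lemma ev_or_od (x : Fin (2 * n)) : (∃ i, x = ev i) ∨ (∃ i, x = od i) := by
  by_cases h : x.val % 2 = 1
  · exact Or.inr ⟨⟨x / 2, by omega⟩, by simp only [od, Fin.ext_iff]; omega⟩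
  · exact Or.inl ⟨⟨x / 2, by omega⟩, by simp only [ev, Fin.ext_iff]; omega⟩

lemma ev_ne_od (i j : Fin n) : ev i ≠ od j := by
  simp only [ev, od, ne_eq, Fin.ext_iff]
  omega

lemma ev_inj {i j : Fin n} (h : ev i = ev j) : i = j := by
  simp only [ev, Fin.ext_iff] at h ⊢
  omega

lemma od_inj {i j : Fin n} (h : od i = od j) : i = j := by
  simp only [od, Fin.ext_iff] at h ⊢
  omega

/-- if all the pairs consist of neighbours, they are the pairs `{2 k, 2 k + 1}` -/
lemma pairs (σ : Perm (Fin (2 * n)))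
    (h : ∀ i : Fin n, (σ (ev i)).val + 1 = (σ (od i)).val ∨ (σ (od i)).val + 1 = (σ (ev i)).val) :
    ∀ k, k < n → ∃ i : Fin n, ((σ (ev i)).val = 2 * k ∧ (σ (od i)).val = 2 * k + 1) ∨
      ((σ (ev i)).val = 2 * k + 1 ∧ (σ (od i)).val = 2 * k) := by
  intro k
  induction k with
  | zero =>
    intro hk
    obtain ⟨z, hz⟩ := σ.surjective ⟨0, by omega⟩
    have hz' : (σ z).val = 0 := by rw [hz]
    rcases ev_or_od z with ⟨i, rfl⟩ | ⟨i, rfl⟩
    · refine ⟨i, Or.inl ?_⟩
      have := h i
      omega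
    · refine ⟨i, Or.inr ?_⟩
      have := h i
      omega
  | succ k ih =>
    intro hk
    obtain ⟨i', hi'⟩ := ih (by omega)
    obtain ⟨z, hz⟩ := σ.surjective ⟨2 * (k + 1), by omega⟩
    have hz' : (σ z).val = 2 * (k + 1) := by rw [hz]
    rcases ev_or_od z with ⟨i, rfl⟩ | ⟨i, rfl⟩
    · refine ⟨i, Or.inl ⟨hz', ?_⟩⟩
      rcases h i with h1 | h1
      · omega
      · exfalso
        have h2 : (σ (od i)).val = 2 * k + 1 := by omega
        rcases hi' with ⟨h3, h4⟩ | ⟨h3, h4⟩
        · have h5 := od_inj (σ.injective (Fin.ext (h2.trans h4.symm)))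
          subst h5
          omega
        · have h5 := σ.injective (Fin.ext (h2.trans h3.symm))
          exact ev_ne_od _ _ h5.symm
    · refine ⟨i, Or.inr ⟨?_, hz'⟩⟩
      rcases h i with h1 | h1
      · exfalso
        have h2 : (σ (ev i)).val = 2 * k + 1 := by omega
        rcases hi' with ⟨h3, h4⟩ | ⟨h3, h4⟩
        · have h5 := σ.injective (Fin.ext (h2.trans h4.symm))
          exact ev_ne_od _ _ h5
        · have h5 := ev_inj (σ.injective (Fin.ext (h2.trans h3.symm)))
          subst h5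
          omega
      · omega

lemma same_block (σ : Perm (Fin (2 * n)))
    (h : ∀ i : Fin n, (σ (ev i)).val + 1 = (σ (od i)).val ∨ (σ (od i)).val + 1 = (σ (ev i)).val)
    (i : Fin n) : (σ (ev i)).val / 2 = (σ (od i)).val / 2 := by
  obtain ⟨j, hj⟩ := pairs σ h ((σ (ev i)).val / 2) (by omega)
  have h1 : σ (ev i) = σ (ev j) ∨ σ (ev i) = σ (od j) := by
    rcases hj with ⟨h3, h4⟩ | ⟨h3, h4⟩
    · rcases Nat.mod_two_eq_zero_or_one (σ (ev i)).val with h5 | h5
      · left
        apply Fin.ext
        omega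
      · right
        apply Fin.ext
        omega
    · rcases Nat.mod_two_eq_zero_or_one (σ (ev i)).val with h5 | h5
      · right
        apply Fin.ext
        omega
      · left
        apply Fin.ext
        omega
  rcases h1 with h1 | h1
  · have := ev_inj (σ.injective h1)
    subst this
    omega
  · exact absurd (σ.injective h1) (ev_ne_od _ _)

/-- the block diagonal part -/
def dg (T : Matrix (Fin (2 * n)) (Fin (2 * n)) R) : Matrix (Fin (2 * n)) (Fin (2 * n)) R :=
  Matrix.of fun x y => if x.val / 2 = y.val / 2 then T x y else 0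

lemma dg_pos (T : Matrix (Fin (2 * n)) (Fin (2 * n)) R) {x y : Fin (2 * n)}
    (h : x.val / 2 = y.val / 2) : dg T x y = T x y := by
  unfold dg
  rw [Matrix.of_apply, if_pos h]

lemma dg_neg (T : Matrix (Fin (2 * n)) (Fin (2 * n)) R) {x y : Fin (2 * n)}
    (h : x.val / 2 ≠ y.val / 2) : dg T x y = 0 := by
  unfold dg
  rw [Matrix.of_apply, if_neg h]

/-- The Pfaffian of a tridiagonal skew-symmetric matrix. -/
theorem pfSum_tridiag (T : Matrix (Fin (2 * n)) (Fin (2 * n)) R)
    (h : ∀ x y : Fin (2 * n), x.val + 1 ≠ y.val → y.val + 1 ≠ x.val → T x y = 0)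
    (hs : ∀ i : Fin n, T (od i) (ev i) = - T (ev i) (od i)) :
    pfSum T = ((n.factorial * 2 ^ n : ℕ) : R) * ∏ i : Fin n, T (ev i) (od i) := by
  have h1 : pfSum T = pfSum (dg T) := by
    unfold pfSum
    refine Finset.sum_congr rfl fun σ _ => ?_
    congr 1
    by_cases hc : ∀ i : Fin n, (σ (ev i)).val + 1 = (σ (od i)).val ∨
        (σ (od i)).val + 1 = (σ (ev i)).val
    · refine Finset.prod_congr rfl fun i _ => ?_
      rw [dg_pos T (same_block σ hc i)]
    · push Not at hc
      obtain ⟨i, h2, h3⟩ := hc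
      rw [Finset.prod_eq_zero (Finset.mem_univ i) (h _ _ h2 h3),
        Finset.prod_eq_zero (Finset.mem_univ i)]
      by_cases h4 : (σ (ev i)).val / 2 = (σ (od i)).val / 2
      · rw [dg_pos T h4, h _ _ h2 h3]
      · rw [dg_neg T h4]
  rw [h1, pfSum_eq, pg_block _ (fun i => T (ev i) (od i)), Fintype.card_fin]
  · intro i j b c hij
    have hij' : i.val ≠ j.val := fun h => hij (Fin.ext h)
    rw [Matrix.submatrix_apply]
    apply dg_neg
    cases b <;> cases c <;> simp only [idx_false, idx_true, ev, od] <;> omega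
  · intro i
    rw [Matrix.submatrix_apply, idx_false, idx_true, dg_pos]
    simp only [ev, od]
    omega
  · intro i
    rw [Matrix.submatrix_apply, idx_false, idx_true, dg_pos, hs]
    simp only [ev, od]
    omega

end Pool.Agent.E8helper75.Pf
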