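import Pool.Agent.E8helper75.Cheb

/-!
# The semicircle weight
-/

set_option autoImplicit false

namespace Pool.Agent.E8helper75.Pf

open Finset Polynomial LaurentPolynomial

variable {R : Type*} [CommRing R] (a b : R)

lemma cL_C_mul (k : ℤ) (c : R) (f : R[T;T⁻¹]) :
    cL k (LaurentPolynomial.C c * f) = c * cL k f := by
  rw [← LaurentPolynomial.smul_eq_C_mul, map_smul, smul_eq_mul]

/-- the Laurent polynomial of `br_ch` -/
noncomputable def KK (m n : ℕ) : R[T;T⁻¹] :=
  ((n : R[T;T⁻¹]) - (m : R[T;T⁻¹])) * (t ^ (m + n) * r a ^ 0)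
      - ((n : R[T;T⁻¹]) + (m : R[T;T⁻¹])) * (t ^ m * r a ^ n)
      + ((n : R[T;T⁻¹]) + (m : R[T;T⁻¹])) * (t ^ n * r a ^ m)
      - ((n : R[T;T⁻¹]) - (m : R[T;T⁻¹])) * (t ^ 0 * r a ^ (m + n))

lemma cL_KK (k : ℤ) (m n : ℕ) : cL k (KK a m n) =
    ((n : R) - m) * (if ((m : ℤ) + n) = k then 1 else 0)
      - ((n : R) + m) * (if (m : ℤ) - n = k then a ^ n else 0)
      + ((n : R) + m) * (if (n : ℤ) - m = k then a ^ m else 0)
      - ((n : R) - m) * (if - ((m : ℤ) + n) = k then a ^ (m + n) else 0) := by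
  have h1 : ((n : R[T;T⁻¹]) - (m : R[T;T⁻¹])) = LaurentPolynomial.C ((n : R) - m) := by
    rw [map_sub, map_natCast, map_natCast]
  have h2 : ((n : R[T;T⁻¹]) + (m : R[T;T⁻¹])) = LaurentPolynomial.C ((n : R) + m) := by
    rw [map_add, map_natCast, map_natCast]
  unfold KK
  rw [h1, h2, map_sub, map_add, map_sub, cL_C_mul, cL_C_mul, cL_C_mul, cL_C_mul, cL_tr, cL_tr,
    cL_tr, cL_tr]
  simp only [Nat.cast_add, Nat.cast_zero, sub_zero, zero_sub, pow_zero]

lemma br_anti (L : R[X] →ₗ[R] R) (p q : R[X]) : br L q p = - br L p q := by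
  rw [br_apply, br_apply, ← map_neg]
  congr 1
  ring

lemma br_self (L : R[X] →ₗ[R] R) (p : R[X]) : br L p p = 0 := by
  rw [br_apply, mul_comm, sub_self, map_zero]

/-- the functional of the semicircle law -/
noncomputable def Ls : R[X] →ₗ[R] R := Lw a b (De a * T (-1))

lemma br_Ls_ch (m n : ℕ) : br (Ls a b) (ch a b m) (ch a b n) = cL 1 (KK a m n) := by
  unfold Ls
  rw [br_ch, cL_mul_T]
  rfl

lemma br_Ls_one (n : ℕ) : br (Ls a b) 1 (ch a b n) =
    (n : R) * ((if (n : ℤ) = 1 then 1 else 0) - (if -(n : ℤ) = 1 then a ^ n else 0)) := by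
  unfold Ls
  rw [br_one_ch, cL_mul_T]
  have h1 : (n : R[T;T⁻¹]) = LaurentPolynomial.C (n : R) := by rw [map_natCast]
  rw [h1, map_sub, cL_C_mul, cL_C_mul, cL_tr, cL_tr]
  simp only [Nat.cast_zero, sub_zero, zero_sub, pow_zero, sub_neg_eq_add, zero_add]
  ring

lemma br_Ls_vv (m n : ℕ) (h : m < n) : br (Ls a b) (vv a b m) (vv a b n) =
    if n = m + 1 then (2 * (m : R) + 1) * a ^ m else 0 := by
  rcases Nat.eq_zero_or_pos m with hm | hm
  · subst hm
    rw [vv_zero, vv_pos a b (by omega), br_Ls_one]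
    by_cases hn : n = 1
    · subst hn
      simp
    · rw [if_neg (by omega), if_neg (by omega), if_neg (by omega)]
      simp
  · rw [vv_pos a b (by omega), vv_pos a b (by omega), br_Ls_ch, cL_KK, if_neg (by omega),
      if_neg (by omega), if_neg (c := -((m : ℤ) + n) = 1) (by omega)]
    by_cases hn : n = m + 1
    · subst hn
      rw [if_pos (by push_cast; ring), if_pos rfl]
      push_cast
      ring
    · rw [if_neg (by omega), if_neg hn]
      ring

theorem pf_Ls [Nontrivial R] (n : ℕ) : pfSum (hk (Ls a b) n) =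
    ((n.factorial * 2 ^ n : ℕ) : R) * ∏ k ∈ range n, ((4 * (k : R) + 1) * a ^ (2 * k)) := by
  rw [pf_hk (Ls a b) (vv a b) (fun i => (vv_monic a b i).1) (fun i => (vv_monic a b i).2),
    ← Fin.prod_univ_eq_prod_range]
  · congr 1
    refine Finset.prod_congr rfl fun i _ => ?_
    rw [br_Ls_vv a b _ _ (by omega), if_pos rfl]
    push_cast
    ring
  · intro i j hi hj
    rcases lt_trichotomy i j with h | h | h
    · rw [br_Ls_vv a b _ _ h, if_neg (by omega)]
    · rw [h, br_self]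
    · rw [br_anti, br_Ls_vv a b _ _ h, if_neg (by omega), neg_zero]

/-- another functional, for the Schröder numbers -/
noncomputable def Lt : R[X] →ₗ[R] R := Lw a b (De a * (-(T 1 + 1)))

lemma cL_neg_T (f : R[T;T⁻¹]) : cL 0 (f * (-(T 1 + 1))) = -(cL (-1) f + cL 0 f) := by
  rw [mul_neg, map_neg, mul_add, map_add, cL_mul_T, mul_one]
  rfl

lemma br_Lt_ch (m n : ℕ) : br (Lt a b) (ch a b m) (ch a b n) =
    -(cL (-1) (KK a m n) + cL 0 (KK a m n)) := by
  unfold Lt
  rw [br_ch, cL_neg_T]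
  rfl

lemma br_Lt_one (n : ℕ) (hn : n ≠ 0) : br (Lt a b) 1 (ch a b n) =
    (n : R) * (if n = 1 then a else 0) := by
  unfold Lt
  rw [br_one_ch, cL_neg_T]
  have h1 : (n : R[T;T⁻¹]) = LaurentPolynomial.C (n : R) := by rw [map_natCast]
  rw [h1, map_sub, map_sub, cL_C_mul, cL_C_mul, cL_C_mul, cL_C_mul, cL_tr, cL_tr, cL_tr, cL_tr]
  simp only [Nat.cast_zero, sub_zero, zero_sub, pow_zero]
  rw [if_neg (by omega), if_neg (c := (n : ℤ) = 0) (by omega),
    if_neg (c := -(n : ℤ) = 0) (by omega)]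
  by_cases h : n = 1
  · subst h
    simp
  · rw [if_neg (by omega), if_neg h]
    simp

lemma br_Lt_vv (m n : ℕ) (h : m < n) : br (Lt a b) (vv a b m) (vv a b n) =
    if n = m + 1 then (2 * (m : R) + 1) * a ^ (m + 1) else 0 := by
  rcases Nat.eq_zero_or_pos m with hm | hm
  · subst hm
    rw [vv_zero, vv_pos a b (by omega), br_Lt_one a b n (by omega)]
    by_cases hn : n = 1
    · subst hn
      simp
    · rw [if_neg (by omega), if_neg (by omega)]
      simp
  · rw [vv_pos a b (by omega), vv_pos a b (by omega), br_Lt_ch, cL_KK, cL_KK,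
      if_neg (c := (m : ℤ) + n = -1) (by omega), if_neg (c := (n : ℤ) - m = -1) (by omega),
      if_neg (c := -((m : ℤ) + n) = -1) (by omega),
      if_neg (c := (m : ℤ) + n = 0) (by omega), if_neg (c := (n : ℤ) - m = 0) (by omega),
      if_neg (c := -((m : ℤ) + n) = 0) (by omega), if_neg (c := (m : ℤ) - n = 0) (by omega)]
    by_cases hn : n = m + 1
    · subst hn
      rw [if_pos (by push_cast; ring), if_pos rfl]
      push_cast
      ring
    · rw [if_neg (by omega), if_neg hn]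
      ring

theorem pf_Lt [Nontrivial R] (n : ℕ) : pfSum (hk (Lt a b) n) =
    ((n.factorial * 2 ^ n : ℕ) : R) * ∏ k ∈ range n, ((4 * (k : R) + 1) * a ^ (2 * k + 1)) := by
  rw [pf_hk (Lt a b) (vv a b) (fun i => (vv_monic a b i).1) (fun i => (vv_monic a b i).2),
    ← Fin.prod_univ_eq_prod_range (fun k => ((4 * (k : R) + 1) * a ^ (2 * k + 1)))]
  · congr 1
    refine Finset.prod_congr rfl fun i _ => ?_
    rw [br_Lt_vv a b _ _ (by omega), if_pos rfl]
    push_cast
    ring
  · intro i j hi hj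
    rcases lt_trichotomy i j with h | h | h
    · rw [br_Lt_vv a b _ _ h, if_neg (by omega)]
    · rw [h, br_self]
    · rw [br_anti, br_Lt_vv a b _ _ h, if_neg (by omega), neg_zero]

end Pool.Agent.E8helper75.Pf
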